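import Mathlib

/-!
Greedy lower bounds for `φ u / u` when the prime factors of `u` are few and restricted.
-/

set_option autoImplicit false

open Finset
open scoped Nat

namespace Pool.Agent.FS.ManyPrimes

/-- The scale of the fixed-point numbers. -/
def MM : ℕ := 1000000000000

/-- Greedy product of `1 - 1/n` over the first `k` members of the list that pass `c`. -/
def GG (c : ℕ → Bool) : List ℕ → ℕ → ℕ
  | [], k => match k with
    | 0 => MM
    | _ + 1 => 0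
  | n :: L, k => match k with
    | 0 => MM
    | k + 1 => cond (c n) (GG c L k * (n - 1) / n) (GG c L (k + 1))

theorem GG_le (c : ℕ → Bool) (L : List ℕ) : L.Pairwise (· < ·) → (∀ x ∈ L, 1 ≤ x) →
    ∀ (k : ℕ) (S : Finset ℕ), S.card ≤ k →
    (∀ s ∈ S, c s = true ∧ 1 ≤ s ∧ (s ∈ L ∨ ∀ x ∈ L, x < s)) →
    (GG c L k : ℚ) ≤ MM * ∏ s ∈ S, (1 - (s : ℚ)⁻¹) := by
  have hnn : ∀ s : ℕ, 1 ≤ s → (0 : ℚ) ≤ 1 - (s : ℚ)⁻¹ := fun s hs =>
    sub_nonneg.2 (inv_le_one_of_one_le₀ (by exact_mod_cast hs))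
  induction L with
  | nil =>
    intro _ _ k S hk hS
    obtain _ | k := k
    · rw [card_eq_zero.1 (Nat.le_zero.1 hk), prod_empty, mul_one]; exact le_rfl
    · rw [show GG c [] (k + 1) = 0 from rfl, Nat.cast_zero]
      exact mul_nonneg (Nat.cast_nonneg _) (prod_nonneg fun s hs => hnn s (hS s hs).2.1)
  | cons n L ih =>
    intro hp h1 k S hk hS
    obtain _ | k := k
    · rw [card_eq_zero.1 (Nat.le_zero.1 hk), prod_empty, mul_one]; exact le_rfl
    rw [List.pairwise_cons] at hp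
    have ih' := ih hp.2 fun x hx => h1 x (List.mem_cons_of_mem _ hx)
    have hn : 1 ≤ n := h1 n List.mem_cons_self
    have key : ∀ s ∈ S, s ≠ n → n < s ∧ (s ∈ L ∨ ∀ x ∈ L, x < s) := fun s hs hsn => by
      rcases (hS s hs).2.2 with h | h
      · have h2 := (List.mem_cons.1 h).resolve_left hsn
        exact ⟨hp.1 s h2, Or.inl h2⟩
      · exact ⟨h n List.mem_cons_self, Or.inr fun x hx => h x (List.mem_cons_of_mem _ hx)⟩
    rw [show GG c (n :: L) (k + 1) = cond (c n) (GG c L k * (n - 1) / n) (GG c L (k + 1)) from rfl]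
    cases hc : c n with
    | false =>
      refine ih' (k + 1) S hk fun s hs => ⟨(hS s hs).1, (hS s hs).2.1, (key s hs ?_).2⟩
      rintro rfl
      rw [(hS _ hs).1] at hc
      exact absurd hc (by decide)
    | true =>
      have h2 : ((GG c L k * (n - 1) / n : ℕ) : ℚ) ≤ GG c L k * (1 - (n : ℚ)⁻¹) := by
        refine Nat.cast_div_le.trans (le_of_eq ?_)
        have : (n : ℚ) ≠ 0 := by positivity
        rw [Nat.cast_mul, Nat.cast_sub hn]
        field_simp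
        simp
      refine le_trans h2 ?_
      have h0 : (0 : ℚ) ≤ GG c L k := Nat.cast_nonneg _
      rcases S.eq_empty_or_nonempty with rfl | ⟨s₁, hs₁⟩
      · have h3 := ih' k ∅ (by simp) (by simp)
        have h4 : (0 : ℚ) ≤ (n : ℚ)⁻¹ := by positivity
        nlinarith
      obtain ⟨s₀, hs₀, hs₀n, hne⟩ : ∃ s₀ ∈ S, n ≤ s₀ ∧ ∀ s ∈ S.erase s₀, s ≠ n := by
        by_cases h : n ∈ S
        · exact ⟨n, h, le_rfl, fun s hs => ne_of_mem_erase hs⟩
        · exact ⟨s₁, hs₁, (key s₁ hs₁ fun h5 => h (h5 ▸ hs₁)).1.le,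
            fun s hs h5 => h (h5 ▸ mem_of_mem_erase hs)⟩
      have h3 := ih' k (S.erase s₀) (by rw [card_erase_of_mem hs₀]; omega) fun s hs =>
        ⟨(hS s (mem_of_mem_erase hs)).1, (hS s (mem_of_mem_erase hs)).2.1,
          (key s (mem_of_mem_erase hs) (hne s hs)).2⟩
      have h4 : (s₀ : ℚ)⁻¹ ≤ (n : ℚ)⁻¹ :=
        inv_anti₀ (by exact_mod_cast hn) (by exact_mod_cast hs₀n)
      rw [← prod_erase_mul S _ hs₀, ← mul_assoc]
      exact mul_le_mul h3 (sub_le_sub_left h4 1) (hnn n hn) (h0.trans h3)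

/-- Trial division. -/
def isP (n : ℕ) : Bool :=
  n % 2 == 1 && n != 1 &&
    [3, 5, 7, 11, 13, 17, 19, 23, 29, 31, 37, 41, 43, 47, 53, 59, 61, 67, 71, 73, 79].all fun d => n % d != 0 || n == d

/-- The odd numbers below 6400 that survive trial division. -/
def PL : List ℕ :=
  [3, 5, 7, 11, 13, 17, 19, 23, 29, 31, 37, 41, 43, 47, 53, 59, 61, 67, 71, 73, 79, 83, 89, 97,
   101, 103, 107, 109, 113, 127, 131, 137, 139, 149, 151, 157, 163, 167, 173, 179, 181, 191, 193,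
   197, 199, 211, 223, 227, 229, 233, 239, 241, 251, 257, 263, 269, 271, 277, 281, 283, 293, 307,
   311, 313, 317, 331, 337, 347, 349, 353, 359, 367, 373, 379, 383, 389, 397, 401, 409, 419, 421,
   431, 433, 439, 443, 449, 457, 461, 463, 467, 479, 487, 491, 499, 503, 509, 521, 523, 541, 547,
   557, 563, 569, 571, 577, 587, 593, 599, 601, 607, 613, 617, 619, 631, 641, 643, 647, 653, 659,
   661, 673, 677, 683, 691, 701, 709, 719, 727, 733, 739, 743, 751, 757, 761, 769, 773, 787, 797,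
   809, 811, 821, 823, 827, 829, 839, 853, 857, 859, 863, 877, 881, 883, 887, 907, 911, 919, 929,
   937, 941, 947, 953, 967, 971, 977, 983, 991, 997, 1009, 1013, 1019, 1021, 1031, 1033, 1039,
   1049, 1051, 1061, 1063, 1069, 1087, 1091, 1093, 1097, 1103, 1109, 1117, 1123, 1129, 1151,
   1153, 1163, 1171, 1181, 1187, 1193, 1201, 1213, 1217, 1223, 1229, 1231, 1237, 1249, 1259,
   1277, 1279, 1283, 1289, 1291, 1297, 1301, 1303, 1307, 1319, 1321, 1327, 1361, 1367, 1373,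
   1381, 1399, 1409, 1423, 1427, 1429, 1433, 1439, 1447, 1451, 1453, 1459, 1471, 1481, 1483,
   1487, 1489, 1493, 1499, 1511, 1523, 1531, 1543, 1549, 1553, 1559, 1567, 1571, 1579, 1583,
   1597, 1601, 1607, 1609, 1613, 1619, 1621, 1627, 1637, 1657, 1663, 1667, 1669, 1693, 1697,
   1699, 1709, 1721, 1723, 1733, 1741, 1747, 1753, 1759, 1777, 1783, 1787, 1789, 1801, 1811,
   1823, 1831, 1847, 1861, 1867, 1871, 1873, 1877, 1879, 1889, 1901, 1907, 1913, 1931, 1933,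
   1949, 1951, 1973, 1979, 1987, 1993, 1997, 1999, 2003, 2011, 2017, 2027, 2029, 2039, 2053,
   2063, 2069, 2081, 2083, 2087, 2089, 2099, 2111, 2113, 2129, 2131, 2137, 2141, 2143, 2153,
   2161, 2179, 2203, 2207, 2213, 2221, 2237, 2239, 2243, 2251, 2267, 2269, 2273, 2281, 2287,
   2293, 2297, 2309, 2311, 2333, 2339, 2341, 2347, 2351, 2357, 2371, 2377, 2381, 2383, 2389,
   2393, 2399, 2411, 2417, 2423, 2437, 2441, 2447, 2459, 2467, 2473, 2477, 2503, 2521, 2531,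
   2539, 2543, 2549, 2551, 2557, 2579, 2591, 2593, 2609, 2617, 2621, 2633, 2647, 2657, 2659,
   2663, 2671, 2677, 2683, 2687, 2689, 2693, 2699, 2707, 2711, 2713, 2719, 2729, 2731, 2741,
   2749, 2753, 2767, 2777, 2789, 2791, 2797, 2801, 2803, 2819, 2833, 2837, 2843, 2851, 2857,
   2861, 2879, 2887, 2897, 2903, 2909, 2917, 2927, 2939, 2953, 2957, 2963, 2969, 2971, 2999,
   3001, 3011, 3019, 3023, 3037, 3041, 3049, 3061, 3067, 3079, 3083, 3089, 3109, 3119, 3121,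
   3137, 3163, 3167, 3169, 3181, 3187, 3191, 3203, 3209, 3217, 3221, 3229, 3251, 3253, 3257,
   3259, 3271, 3299, 3301, 3307, 3313, 3319, 3323, 3329, 3331, 3343, 3347, 3359, 3361, 3371,
   3373, 3389, 3391, 3407, 3413, 3433, 3449, 3457, 3461, 3463, 3467, 3469, 3491, 3499, 3511,
   3517, 3527, 3529, 3533, 3539, 3541, 3547, 3557, 3559, 3571, 3581, 3583, 3593, 3607, 3613,
   3617, 3623, 3631, 3637, 3643, 3659, 3671, 3673, 3677, 3691, 3697, 3701, 3709, 3719, 3727,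
   3733, 3739, 3761, 3767, 3769, 3779, 3793, 3797, 3803, 3821, 3823, 3833, 3847, 3851, 3853,
   3863, 3877, 3881, 3889, 3907, 3911, 3917, 3919, 3923, 3929, 3931, 3943, 3947, 3967, 3989,
   4001, 4003, 4007, 4013, 4019, 4021, 4027, 4049, 4051, 4057, 4073, 4079, 4091, 4093, 4099,
   4111, 4127, 4129, 4133, 4139, 4153, 4157, 4159, 4177, 4201, 4211, 4217, 4219, 4229, 4231,
   4241, 4243, 4253, 4259, 4261, 4271, 4273, 4283, 4289, 4297, 4327, 4337, 4339, 4349, 4357,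
   4363, 4373, 4391, 4397, 4409, 4421, 4423, 4441, 4447, 4451, 4457, 4463, 4481, 4483, 4493,
   4507, 4513, 4517, 4519, 4523, 4547, 4549, 4561, 4567, 4583, 4591, 4597, 4603, 4621, 4637,
   4639, 4643, 4649, 4651, 4657, 4663, 4673, 4679, 4691, 4703, 4721, 4723, 4729, 4733, 4751,
   4759, 4783, 4787, 4789, 4793, 4799, 4801, 4813, 4817, 4831, 4861, 4871, 4877, 4889, 4903,
   4909, 4919, 4931, 4933, 4937, 4943, 4951, 4957, 4967, 4969, 4973, 4987, 4993, 4999, 5003,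
   5009, 5011, 5021, 5023, 5039, 5051, 5059, 5077, 5081, 5087, 5099, 5101, 5107, 5113, 5119,
   5147, 5153, 5167, 5171, 5179, 5189, 5197, 5209, 5227, 5231, 5233, 5237, 5261, 5273, 5279,
   5281, 5297, 5303, 5309, 5323, 5333, 5347, 5351, 5381, 5387, 5393, 5399, 5407, 5413, 5417,
   5419, 5431, 5437, 5441, 5443, 5449, 5471, 5477, 5479, 5483, 5501, 5503, 5507, 5519, 5521,
   5527, 5531, 5557, 5563, 5569, 5573, 5581, 5591, 5623, 5639, 5641, 5647, 5651, 5653, 5657,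
   5659, 5669, 5683, 5689, 5693, 5701, 5711, 5717, 5737, 5741, 5743, 5749, 5779, 5783, 5791,
   5801, 5807, 5813, 5821, 5827, 5839, 5843, 5849, 5851, 5857, 5861, 5867, 5869, 5879, 5881,
   5897, 5903, 5923, 5927, 5939, 5953, 5981, 5987, 6007, 6011, 6029, 6037, 6043, 6047, 6053,
   6067, 6073, 6079, 6089, 6091, 6101, 6113, 6121, 6131, 6133, 6143, 6151, 6163, 6173, 6197,
   6199, 6203, 6211, 6217, 6221, 6229, 6247, 6257, 6263, 6269, 6271, 6277, 6287, 6299, 6301,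
   6311, 6317, 6323, 6329, 6337, 6343, 6353, 6359, 6361, 6367, 6373, 6379, 6389, 6397]

theorem PL_eq : (List.range 6400).filter isP = PL := by decide +kernel

theorem PL_lt : ∀ x ∈ PL, 1 ≤ x ∧ x < 6400 := by decide +kernel

theorem isP_of_prime {n : ℕ} (hn : n.Prime) (ho : Odd n) : isP n = true := by
  simp only [isP, Bool.and_eq_true, beq_iff_eq, bne_iff_ne, List.all_eq_true, Bool.or_eq_true]
  refine ⟨⟨Nat.odd_iff.1 ho, hn.ne_one⟩, fun d hd => ?_⟩
  by_cases h : n % d = 0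
  · rcases (Nat.dvd_prime hn).1 (Nat.dvd_of_mod_eq_zero h) with h1 | h1
    · subst h1
      exact absurd hd (by decide)
    · exact Or.inr h1.symm
  · exact Or.inl h

/-- `n` is outside `E` and is not `1` modulo any member of `D`. -/
def cc (E D : List ℕ) (n : ℕ) : Bool := (E.all fun q => n != q) && D.all fun q => n % q != 1

/-- No member of `E` divides `u` and no member of `D` divides `φ u`. -/
def Ok (u : ℕ) (E D : List ℕ) : Prop := (∀ q ∈ E, ¬q ∣ u) ∧ ∀ q ∈ D, ¬q ∣ φ u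

theorem cc_of_ok {u s : ℕ} {E D : List ℕ} (h : Ok u E D) (hp : s.Prime) (hd : s ∣ u) :
    cc E D s = true := by
  simp only [cc, Bool.and_eq_true, List.all_eq_true, bne_iff_ne]
  refine ⟨fun q hq h2 => h.1 q hq (h2 ▸ hd), fun q hq h2 => h.2 q hq ?_⟩
  refine dvd_trans ?_ (Nat.totient_dvd_of_dvd hd)
  rw [Nat.totient_prime hp]
  exact ⟨s / q, by have := Nat.div_add_mod s q; omega⟩

theorem tot_ge {u k : ℕ} {E D : List ℕ} (hu : Odd u) (hk : u.primeFactors.card ≤ k)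
    (h : Ok u E D) : GG (cc E D) PL k * u ≤ MM * φ u := by
  have h1 := GG_le (cc E D) PL (PL_eq ▸ List.pairwise_lt_range.filter _) (fun x hx => (PL_lt x hx).1)
    k u.primeFactors hk fun s hs => by
      have hp := Nat.prime_of_mem_primeFactors hs
      have hd := Nat.dvd_of_mem_primeFactors hs
      refine ⟨cc_of_ok h hp hd, hp.one_le, ?_⟩
      · by_cases h2 : s < 6400
        · exact Or.inl (PL_eq ▸ List.mem_filter.2
            ⟨List.mem_range.2 h2, isP_of_prime hp (hu.of_dvd_nat hd)⟩)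
        · exact Or.inr fun x hx => by have := (PL_lt x hx).2; omega
  have h2 := mul_le_mul_of_nonneg_right h1 (u.cast_nonneg (α := ℚ))
  rw [mul_assoc, mul_comm (Finset.prod _ _), ← Nat.totient_eq_mul_prod_factors] at h2
  exact_mod_cast h2

theorem step_ge {x y k : ℕ} {E D : List ℕ} (hx : Odd x) (hk : x.primeFactors.card ≤ k)
    (h : Ok x E D) (hs : 2 * y = 2 * x + φ x) :
    (2 * MM + GG (cc E D) PL k) * x ≤ 2 * MM * y := by
  have := tot_ge hx hk h
  nlinarith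

/-- The size test for two steps. -/
def tst (E₀ D₀ E₁ D₁ : List ℕ) : Bool :=
  Nat.blt (2 * MM * (2 * MM) * 16384)
    (12287 * ((2 * MM + GG (cc E₀ D₀) PL 399) * (2 * MM + GG (cc E₁ D₁) PL 399)))

/-- The case tree over small primes. -/
def chk : List ℕ → List ℕ → List ℕ → List ℕ → List ℕ → Bool
  | [], E₀, D₀, E₁, D₁ => tst E₀ D₀ E₁ D₁
  | q :: Q, E₀, D₀, E₁, D₁ => (tst E₀ D₀ E₁ D₁ ||
      (cond (cc E₁ D₁ q) (cond (cc E₀ D₀ q) (chk Q E₀ D₀ E₁ (q :: D₁))
        (chk Q E₀ (q :: D₀) E₁ (q :: D₁))) true &&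
      (chk Q (q :: E₀) D₀ (q :: E₁) D₁ &&
        cond (cc E₀ D₀ q) (chk Q E₀ (q :: D₀) (q :: E₁) D₁) true)))

theorem chk_main : chk [5, 7, 11, 13, 17, 19, 23, 29, 31, 37, 41, 43, 47, 53, 59, 61, 67]
    [3] [] [3] [] = true := by
  decide +kernel

theorem chk_three : tst [3] [3] [] [3] = true := by decide +kernel

theorem num_AB : GG (cc [3] []) PL 399 ≤ GG (cc [] [3]) PL 399 := by decide +kernel

theorem num_small : 2 * MM * (2 * MM) * 7 <
    5 * ((2 * MM + GG (cc [3] []) PL 5) * (2 * MM + GG (cc [3] []) PL 399)) := by decide +kernel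

theorem num_a : 2 * MM * (2 * MM) * (2 * MM) * 16384 < 12287 * ((2 * MM + GG (cc [3] []) PL 399) *
    (2 * MM + GG (cc [3] []) PL 399) * (2 * MM + GG (cc [3] []) PL 399)) := by decide +kernel

theorem num_b : 2 * MM * (2 * MM) * (2 * MM) * 16384 < 12287 * ((2 * MM + GG (cc [3] [3]) PL 399) *
    (2 * MM + GG (cc [] []) PL 399) * (2 * MM + GG (cc [3] []) PL 399)) := by decide +kernel

theorem fin0 {x y m a b P : ℕ} (ha : 0 < a) (h4 : x * a ≤ m * b) (h5 : y * b ≤ m * P)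
    (h3 : 12287 * P ≤ 16384 * a) (h : m * m * 16384 < 12287 * (x * y)) : False := by
  have h7 : x * y * a ≤ m * m * P := by
    calc x * y * a = y * (x * a) := by ring
      _ ≤ y * (m * b) := Nat.mul_le_mul_left _ h4
      _ = m * (y * b) := by ring
      _ ≤ m * (m * P) := Nat.mul_le_mul_left _ h5
      _ = m * m * P := by ring
  have h8 : 12287 * (x * y) * a ≤ m * m * 16384 * a := by
    calc 12287 * (x * y) * a = 12287 * (x * y * a) := by ring
      _ ≤ 12287 * (m * m * P) := Nat.mul_le_mul_left _ h7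
      _ = m * m * (12287 * P) := by ring
      _ ≤ m * m * (16384 * a) := Nat.mul_le_mul_left _ h3
      _ = m * m * 16384 * a := by ring
  exact absurd (Nat.le_of_mul_le_mul_right h8 ha) (not_le.2 h)

theorem tst_sound {a b P : ℕ} (ha : Odd a) (hb : Odd b) (hka : a.primeFactors.card ≤ 399)
    (hkb : b.primeFactors.card ≤ 399) (h1 : 2 * b = 2 * a + φ a) (h2 : 2 * P = 2 * b + φ b)
    (h3 : 12287 * P ≤ 16384 * a) {E₀ D₀ E₁ D₁ : List ℕ} (hA : Ok a E₀ D₀) (hB : Ok b E₁ D₁) :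
    tst E₀ D₀ E₁ D₁ ≠ true := fun h => by
  unfold tst at h
  rw [Nat.blt_eq] at h
  exact fin0 ha.pos (step_ge ha hka hA h1) (step_ge hb hkb hB h2) h3 h

theorem chk_sound {a b P : ℕ} (ha : Odd a) (hb : Odd b) (hka : a.primeFactors.card ≤ 399)
    (hkb : b.primeFactors.card ≤ 399) (h1 : 2 * b = 2 * a + φ a) (h2 : 2 * P = 2 * b + φ b)
    (h3 : 12287 * P ≤ 16384 * a) (Q : List ℕ) : (∀ q ∈ Q, q.Prime ∧ q.Coprime 2 ∧ ¬q ∣ P) →
    ∀ E₀ D₀ E₁ D₁ : List ℕ, Ok a E₀ D₀ → Ok b E₁ D₁ → chk Q E₀ D₀ E₁ D₁ ≠ true := by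
  induction Q with
  | nil => exact fun _ E₀ D₀ E₁ D₁ hA hB => tst_sound ha hb hka hkb h1 h2 h3 hA hB
  | cons q Q ih =>
    intro hQ E₀ D₀ E₁ D₁ hA hB h
    have ih' := ih fun x hx => hQ x (List.mem_cons_of_mem _ hx)
    obtain ⟨hq, hq2, hqP⟩ := hQ q List.mem_cons_self
    rw [show chk (q :: Q) E₀ D₀ E₁ D₁ = (tst E₀ D₀ E₁ D₁ ||
      (cond (cc E₁ D₁ q) (cond (cc E₀ D₀ q) (chk Q E₀ D₀ E₁ (q :: D₁))
        (chk Q E₀ (q :: D₀) E₁ (q :: D₁))) true &&
      (chk Q (q :: E₀) D₀ (q :: E₁) D₁ &&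
        cond (cc E₀ D₀ q) (chk Q E₀ (q :: D₀) (q :: E₁) D₁) true))) from rfl,
      Bool.or_eq_true, Bool.and_eq_true, Bool.and_eq_true] at h
    rcases h with h | ⟨hX, hY, hZ⟩
    · exact tst_sound ha hb hka hkb h1 h2 h3 hA hB h
    by_cases hqb : q ∣ b
    · have hB' : Ok b E₁ (q :: D₁) := ⟨hB.1, List.forall_mem_cons.2 ⟨fun h4 =>
        hqP (hq2.dvd_of_dvd_mul_left (h2 ▸ dvd_add (hqb.mul_left 2) h4)), hB.2⟩⟩
      rw [cc_of_ok hB hq hqb, cond_true] at hX
      cases hc : cc E₀ D₀ q with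
      | true =>
        rw [hc, cond_true] at hX
        exact ih' _ _ _ _ hA hB' hX
      | false =>
        rw [hc, cond_false] at hX
        refine ih' _ _ _ _ ⟨hA.1, List.forall_mem_cons.2 ⟨fun h4 => ?_, hA.2⟩⟩ hB' hX
        have h5 : q ∣ 2 * a := (Nat.dvd_add_left h4).1 (h1 ▸ hqb.mul_left 2)
        rw [cc_of_ok hA hq (hq2.dvd_of_dvd_mul_left h5)] at hc
        exact absurd hc (by decide)
    have hB' : Ok b (q :: E₁) D₁ := ⟨List.forall_mem_cons.2 ⟨hqb, hB.1⟩, hB.2⟩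
    by_cases hqa : q ∣ a
    · rw [cc_of_ok hA hq hqa, cond_true] at hZ
      refine ih' _ _ _ _ ⟨hA.1, List.forall_mem_cons.2 ⟨fun h4 => hqb ?_, hA.2⟩⟩ hB' hZ
      exact hq2.dvd_of_dvd_mul_left (h1 ▸ dvd_add (hqa.mul_left 2) h4)
    · exact ih' _ _ _ _ ⟨List.forall_mem_cons.2 ⟨hqa, hA.1⟩, hA.2⟩ hB' hY

end Pool.Agent.FS.ManyPrimes
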