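import Pool.Agent.FS.ManyPrimes.Greedy
import Pool.Agent.Lib.MP_df8f2d_nt.Main

/-!
A doubling orbit of `n + φ n` whose members have at most 400 prime factors has period two.
-/

set_option autoImplicit false

open Finset
open scoped Nat

namespace Pool.Agent.FS.ManyPrimes

open Pool.Agent.Lib.MP_df8f2d_nt

theorem pow_card_le {w : ℕ} (hw : Odd w) (h3 : ¬3 ∣ w) : 5 ^ w.primeFactors.card ≤ w := by
  refine le_trans ?_ (Nat.le_of_dvd hw.pos (Nat.prod_primeFactors_dvd w))
  refine Finset.pow_card_le_prod _ _ _ fun q hq => ?_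
  have hp := Nat.prime_of_mem_primeFactors hq
  have hd := Nat.dvd_of_mem_primeFactors hq
  obtain ⟨c, hc⟩ := hw.of_dvd_nat hd
  have h1 := hp.two_le
  have h2 : q ≠ 3 := fun h => h3 (h ▸ hd)
  omega

theorem mul3 {x y z m a b c d b' c' : ℕ} (h1 : x * a ≤ m * b) (hb : b ≤ b') (h2 : y * b' ≤ m * c)
    (hc : c ≤ c') (h3 : z * c' ≤ m * d) : x * y * z * a ≤ m * m * m * d := by
  have h4 : y * b ≤ m * c := (Nat.mul_le_mul_left _ hb).trans h2
  have h5 : z * c ≤ m * d := (Nat.mul_le_mul_left _ hc).trans h3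
  calc x * y * z * a = y * z * (x * a) := by ring
    _ ≤ y * z * (m * b) := Nat.mul_le_mul_left _ h1
    _ = m * z * (y * b) := by ring
    _ ≤ m * z * (m * c) := Nat.mul_le_mul_left _ h4
    _ = m * m * (z * c) := by ring
    _ ≤ m * m * (m * d) := Nat.mul_le_mul_left _ h5
    _ = m * m * m * d := by ring

theorem fin3 {X m a P : ℕ} (ha : 0 < a) (h1 : X * a ≤ m * P) (h2 : 12287 * P ≤ 16384 * a)
    (h3 : m * 16384 < 12287 * X) : False := by
  have h4 : 12287 * X * a ≤ m * 16384 * a := by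
    calc 12287 * X * a = 12287 * (X * a) := by ring
      _ ≤ 12287 * (m * P) := Nat.mul_le_mul_left _ h1
      _ = m * (12287 * P) := by ring
      _ ≤ m * (16384 * a) := Nat.mul_le_mul_left _ h2
      _ = m * 16384 * a := by ring
  exact absurd (Nat.le_of_mul_le_mul_right h4 ha) (not_le.2 h3)

theorem fin2 {x y m a b b' P : ℕ} (ha : 0 < a) (h1 : x * a ≤ m * b) (hb : b ≤ b')
    (h2 : y * b' ≤ m * P) (h3 : 5 * P ≤ 7 * a) (h4 : m * m * 7 < 5 * (x * y)) : False := by
  have h5 : y * b ≤ m * P := (Nat.mul_le_mul_left _ hb).trans h2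
  have h6 : 5 * (x * y) * a ≤ m * m * 7 * a := by
    calc 5 * (x * y) * a = 5 * y * (x * a) := by ring
      _ ≤ 5 * y * (m * b) := Nat.mul_le_mul_left _ h1
      _ = 5 * m * (y * b) := by ring
      _ ≤ 5 * m * (m * P) := Nat.mul_le_mul_left _ h5
      _ = m * m * (5 * P) := by ring
      _ ≤ m * m * (7 * a) := Nat.mul_le_mul_left _ h3
      _ = m * m * 7 * a := by ring
  exact absurd (Nat.le_of_mul_le_mul_right h6 ha) (not_le.2 h4)

theorem ok_three {u : ℕ} (h : ¬3 ∣ u) : Ok u [3] [] :=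
  ⟨fun q hq => by rw [List.mem_singleton.1 hq]; exact h, fun _ hq => absurd hq List.not_mem_nil⟩

theorem ok_three' {u : ℕ} (h : ¬3 ∣ φ u) : Ok u [] [3] :=
  ⟨fun _ hq => absurd hq List.not_mem_nil, fun q hq => by rw [List.mem_singleton.1 hq]; exact h⟩

theorem chain_one {v : ℕ → ℕ} {s p t : ℕ} (hp : p.Prime) (hp7 : 7 ≤ p)
    (hstep : ∀ i < s, 2 * v (i + 1) = 2 * v i + φ (v i))
    (h0 : 4 * v 0 + p ^ t = 3 * p ^ (t + 1)) (hs : v s = p ^ (t + 1))
    (hodd : ∀ i, Odd (v i)) (hK : ∀ i, (v i).primeFactors.card ≤ 399) : s = 1 := by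
  have hP : 0 < p ^ t := pow_pos hp.pos t
  have hq : ∀ q : ℕ, q.Prime → q < p → ¬q ∣ p ^ (t + 1) := fun q hq hlt h =>
    absurd ((Nat.prime_dvd_prime_iff_eq hq hp).1 (hq.dvd_of_dvd_pow h)) hlt.ne
  have hmono : ∀ i j, i ≤ j → j ≤ s → v i ≤ v j := fun i j hij => by
    induction j, hij using Nat.le_induction with
    | base => exact fun _ => le_rfl
    | succ j _ ih => exact fun hj => by linarith [ih (by omega), hstep j hj, (φ (v j)).zero_le]
  obtain _ | _ | s := s
  · rw [hs, pow_succ] at h0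
    nlinarith
  · rfl
  exfalso
  have h3a : ¬3 ∣ v 0 := fun h => by
    have h1 : 3 ∣ p ^ t := (Nat.dvd_add_right (h.mul_left 4)).1 (h0 ▸ dvd_mul_right 3 _)
    exact hq 3 Nat.prime_three (by omega) (h1.trans (pow_dvd_pow p t.le_succ))
  have hlast := hstep (s + 1) (by omega)
  rw [hs] at hlast
  have h3l : 3 ∣ v (s + 1) → ¬3 ∣ φ (v (s + 1)) := fun h h' =>
    hq 3 Nat.prime_three (by omega) ((by norm_num : Nat.Coprime 3 2).dvd_of_dvd_mul_left
      (hlast ▸ dvd_add (h.mul_left 2) h'))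
  have hL : (2 * MM + GG (cc [3] []) PL 399) * v (s + 1) ≤ 2 * MM * p ^ (t + 1) := by
    by_cases h : 3 ∣ v (s + 1)
    · exact (Nat.mul_le_mul_right _ (Nat.add_le_add_left num_AB _)).trans
        (step_ge (hodd _) (hK _) (ok_three' (h3l h)) hlast)
    · exact step_ge (hodd _) (hK _) (ok_three h) hlast
  have hfirst := hstep 0 (by omega)
  have hent : 3 ∣ v 1 → Ok (v 0) [3] [3] := fun h => ⟨(ok_three h3a).1, (ok_three' fun h' => by
    have h1 : 3 ∣ 2 * v 0 := (Nat.dvd_add_left h').1 (hfirst ▸ h.mul_left 2)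
    exact h3a ((by norm_num : Nat.Coprime 3 2).dvd_of_dvd_mul_left h1)).2⟩
  have hbig : 4096 ≤ p := by
    by_contra! hlt
    have hc : (p ^ t).Coprime 4 :=
      (((Nat.coprime_primes hp Nat.prime_two).2 (by omega)).pow_right 2).pow_left t
    obtain ⟨w, hw⟩ : p ^ t ∣ v 0 := hc.dvd_of_dvd_mul_left
      ((Nat.dvd_add_iff_left dvd_rfl).2 (h0 ▸ (pow_dvd_pow p t.le_succ).mul_left 3))
    have h1 : 4 * w + 1 = 3 * p := Nat.eq_of_mul_eq_mul_left hP (by
      rw [hw, pow_succ] at h0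
      linarith)
    have hwd : w ∣ v 0 := Dvd.intro_left _ hw.symm
    have h2 := pow_card_le ((hodd 0).of_dvd_nat hwd) fun h => h3a (h.trans hwd)
    have h3 : w.primeFactors.card < 5 :=
      (Nat.pow_lt_pow_iff_right (by norm_num : 1 < 5)).1 (by omega)
    have h4 : (v 0).primeFactors.card ≤ 5 := by
      have h5 : (p ^ t).primeFactors.card ≤ 1 := by
        obtain _ | t := t
        · simp
        · rw [Nat.primeFactors_prime_pow t.succ_ne_zero hp, card_singleton]
      rw [hw, Nat.primeFactors_mul hP.ne' (by omega)]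
      have := card_union_le (p ^ t).primeFactors w.primeFactors
      omega
    refine fin2 (hodd 0).pos (step_ge (hodd 0) h4 (ok_three h3a) hfirst)
      (hmono (0 + 1) (s + 1) (by omega) (by omega)) hL ?_ num_small
    rw [pow_succ] at h0 ⊢
    nlinarith
  have hrat : 12287 * p ^ (t + 1) ≤ 16384 * v 0 := by
    rw [pow_succ] at h0 ⊢
    nlinarith
  obtain _ | s := s
  · by_cases h : 3 ∣ v 1
    · exact tst_sound (hodd 0) (hodd 1) (hK 0) (hK 1) hfirst hlast hrat (hent h)
        (ok_three' (h3l h)) chk_three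
    · refine chk_sound (hodd 0) (hodd 1) (hK 0) (hK 1) hfirst hlast hrat _ (fun q hq' => ?_) _ _ _ _
        (ok_three h3a) (ok_three h) chk_main
      have h1 : q.Prime ∧ q < 4096 ∧ q.Coprime 2 := by
        simp only [List.mem_cons, List.not_mem_nil, or_false] at hq'
        rcases hq' with rfl | rfl | rfl | rfl | rfl | rfl | rfl | rfl | rfl | rfl | rfl | rfl |
          rfl | rfl | rfl | rfl | rfl <;> norm_num
      exact ⟨h1.1, h1.2.2, hq q h1.1 (by omega)⟩
  have hsec := hstep 1 (by omega)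
  have hm := hmono (1 + 1) (s + 1 + 1) (by omega) (by omega)
  by_cases h : 3 ∣ v 1
  · exact fin3 (hodd 0).pos (mul3 (step_ge (hodd 0) (hK 0) (hent h) hfirst) le_rfl
      (step_ge (E := []) (D := []) (hodd 1) (hK 1)
        ⟨fun _ hq => absurd hq List.not_mem_nil, fun _ hq => absurd hq List.not_mem_nil⟩ hsec)
      hm hL) hrat num_b
  · exact fin3 (hodd 0).pos (mul3 (step_ge (hodd 0) (hK 0) (ok_three h3a) hfirst) le_rfl
      (step_ge (hodd 1) (hK 1) (ok_three h) hsec) hm hL) hrat num_a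

theorem orbit_two {e u : ℕ → ℕ} {r : ℕ} (hr : 0 < r) (hu : ∀ k, Odd (u k))
    (hstep : ∀ k, 2 ^ (e (k + 1) + 1) * u (k + 1)
      = 2 ^ (e k + 1) * u k + φ (2 ^ (e k + 1) * u k))
    (hper : ∀ k, 2 ^ (e (k + r) + 1) * u (k + r) = 2 * (2 ^ (e k + 1) * u k))
    (hK : ∀ k, (2 ^ (e k + 1) * u k).primeFactors.card ≤ 400) : r = 2 := by
  have h1 : ∀ k, e (k + r) + 1 = e k + 1 + 1 ∧ u (k + r) = u k := fun k =>
    odd_part_unique (hu _) (hu _) (by rw [hper]; ring)
  have h2 : ∀ k, 2 ^ (e (k + 1) + 1) * u (k + 1) = 2 ^ e k * (2 * u k + φ (u k)) := fun k => by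
    rw [hstep, Nat.totient_mul ((Nat.coprime_two_left.2 (hu k)).pow_left _),
      Nat.totient_prime_pow_succ Nat.prime_two]
    ring
  have h3 : ∀ k, (u k).primeFactors.card < 400 := fun k => by
    refine lt_of_lt_of_le (card_lt_card ⟨Nat.primeFactors_mono (dvd_mul_left _ _)
      (mul_pos (by positivity) (hu k).pos).ne', fun h => ?_⟩) (hK k)
    exact (hu k).not_two_dvd_nat (Nat.dvd_of_mem_primeFactors (h (Nat.prime_two.mem_primeFactors
      (Dvd.dvd.mul_right (dvd_pow_self 2 (by omega)) _) (mul_pos (by positivity) (hu k).pos).ne')))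
  by_cases h : ∃ j, u j = 1
  · obtain ⟨j, hj⟩ := h
    have h4 := odd_part_unique (e' := e j) (u' := 3) (hu _) (by decide) (by rw [h2 j, hj]; simp)
    have h5 : 2 ^ (e (j + 2) + 1) * u (j + 2) = 2 ^ (e (j + r) + 1) * u (j + r) := by
      rw [h2 (j + 1), hper, hj, h4.2, ← h4.1, Nat.totient_prime Nat.prime_three]
      ring
    have h6 : StrictMono fun k => 2 ^ (e k + 1) * u k := strictMono_nat_of_lt_succ fun k => by
      rw [hstep]
      exact lt_add_of_pos_right _ (Nat.totient_pos.2 (mul_pos (by positivity) (hu k).pos))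
    have h7 : j + 2 = j + r := h6.injective h5
    omega
  push Not at h
  have h4 : ∀ k, ∃ f, φ (u k) = 2 * f := fun k => by
    obtain ⟨c, hc⟩ := hu k
    exact (Nat.totient_even (by have := h k; omega)).two_dvd
  choose f hf using h4
  have h5 : ∀ k, 2 ^ e (k + 1) * u (k + 1) = 2 ^ e k * (u k + f k) := fun k =>
    Nat.eq_of_mul_eq_mul_left two_pos (by linear_combination h2 k + 2 ^ e k * hf k)
  have h6 : Monotone e := monotone_nat_of_le_succ fun k =>
    (Nat.pow_dvd_pow_iff_le_right one_lt_two).1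
      (((Nat.coprime_two_left.2 (hu _)).pow_left _).dvd_of_dvd_mul_right (Dvd.intro _ (h5 k).symm))
  obtain ⟨j, hj⟩ : ∃ j, e j < e (j + 1) := by
    by_contra! hc
    have := antitone_nat_of_succ_le hc r.zero_le
    have := (h1 0).1
    rw [zero_add] at this
    omega
  have h7 : ∀ i < r, e (j + 1 + i) = e j + 1 := fun i hi => by
    have := h6 (by omega : j + 1 ≤ j + 1 + i)
    have := h6 (by omega : j + 1 + i ≤ j + r)
    have := (h1 j).1
    omega
  have h8 : 2 * u (j + 1) = u j + f j := Nat.eq_of_mul_eq_mul_left (by positivity : 0 < 2 ^ e j)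
    (by rw [← h5, show e (j + 1) = e j + 1 from h7 0 hr]; ring)
  obtain ⟨p, t, hp, h9⟩ := prime_pow_of_tot (hu j) (h j) (by
    obtain ⟨c, hc⟩ := hu j
    rw [hf]
    omega)
  have h10 : 4 * u (j + 1) + p ^ t = 3 * p ^ (t + 1) := by
    have := hf j
    obtain ⟨q, rfl⟩ := Nat.exists_eq_add_of_le' hp.one_le
    rw [h9, Nat.totient_prime_pow_succ hp, Nat.add_sub_cancel] at this
    rw [h9] at h8
    linear_combination 2 * h8 - this
  have h11 : 7 ≤ p := by
    by_contra! hc
    have h12 := hu j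
    have h13 := hp.two_le
    obtain ⟨c, hc'⟩ := hu (j + 1)
    rw [h9] at h12
    rw [pow_succ] at h10
    obtain ⟨d, hd⟩ := h12.of_dvd_nat (pow_dvd_pow p t.le_succ)
    obtain ⟨d', hd'⟩ := h12.of_dvd_nat (dvd_pow_self p t.succ_ne_zero)
    interval_cases p <;> omega
  obtain ⟨s, rfl⟩ := Nat.exists_eq_add_of_le' hr
  have h13 := chain_one (v := fun i => u (j + 1 + i)) (s := s) hp h11 (fun i hi => by
      have h15 := h5 (j + 1 + i)
      rw [add_assoc _ i, h7 i (by omega), h7 (i + 1) (by omega)] at h15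
      have := Nat.eq_of_mul_eq_mul_left (by positivity) h15
      rw [hf]
      omega) h10 (by rw [← h9, ← (h1 j).2]; congr 1; ring) (fun _ => hu _)
      fun _ => Nat.le_of_lt_succ (h3 _)
  omega

end Pool.Agent.FS.ManyPrimes
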